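import Pool.Agent.Helper21.MH.Hodge
import Pool.Agent.Helper2.EL.Defs
import Pool.Agent.Helper2.CF.Defs

/-!
From the Lie algebra to the group, one tensor at a time: a tensor that is killed by the Lie algebra of the
orthogonal group of a nondegenerate symmetric form is fixed by the special orthogonal group; a tensor that is
killed by the identity matrix is fixed by the invertible scalars.
-/

set_option linter.unusedSectionVars false
set_option linter.unusedVariables false
set_option linter.unusedSimpArgs false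

open Matrix

namespace MH

variable {n : Type*} [Fintype n] [DecidableEq n]

/-- the submonoid of the matrices that fix the tensor -/
def Fixm61 (a b : ℕ) (t : (Fin a ⊕ Fin b → n) → ℂ) : Submonoid (Matrix n n ℂ) where
  carrier := {g | ∃ g' : Matrix n n ℂ, g * g' = 1 ∧ actF (slot a b g g') t = t}
  mul_mem' := by
    rintro g h ⟨g', hg, hg'⟩ ⟨h', hh, hh'⟩
    refine ⟨h' * g', ?_, ?_⟩
    · calc g * h * (h' * g') = g * (h * h') * g' := by simp only [mul_assoc]
        _ = 1 := by rw [hh, mul_one, hg]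
    · have e1 : slot a b (g * h) (h' * g') = fun k => slot a b g g' k * slot a b h h' k := by
        funext k
        rcases k with k | k
        · rfl
        · simp only [slot, Sum.elim_inr, Matrix.transpose_mul]
      rw [e1, ← actF_mul, hh', hg']
  one_mem' := by
    refine ⟨1, mul_one 1, ?_⟩
    have e1 : slot a b (1 : Matrix n n ℂ) 1 = fun _ => 1 := by
      funext k
      rcases k with k | k
      · rfl
      · simp [slot]
    rw [e1, actF_one]

theorem fix_of_mem61 {a b : ℕ} {t : (Fin a ⊕ Fin b → n) → ℂ} {g : GL n ℂ}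
    (hg : (g : Matrix n n ℂ) ∈ Fixm61 a b t) :
    actF (slot a b (g : Matrix n n ℂ) ((g⁻¹ : GL n ℂ) : Matrix n n ℂ)) t = t := by
  obtain ⟨g', h1, h2⟩ := hg
  have h3 : g' = ((g⁻¹ : GL n ℂ) : Matrix n n ℂ) := by
    calc g' = ((g⁻¹ : GL n ℂ) : Matrix n n ℂ) * ((g : Matrix n n ℂ) * g') := by
          rw [← mul_assoc, ← Units.val_mul, inv_mul_cancel, Units.val_one, one_mul]
      _ = _ := by rw [h1, mul_one]
  rw [← h3]
  exact h2

/-- the torus elements of hyperbolic pairs fix the tensor -/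
theorem hyp_mem61 {Q' : Matrix n n ℂ} (hs : Q'ᵀ = Q') {a b : ℕ} {t : (Fin a ⊕ Fin b → n) → ℂ}
    (hk : ∀ X : Matrix n n ℂ, Xᵀ * Q' + Q' * X = 0 → dL a b t X = 0)
    {e f : n → ℂ} {z : ℂ} (h1 : e ⬝ᵥ (Q' *ᵥ e) = 0) (h2 : f ⬝ᵥ (Q' *ᵥ f) = 0)
    (h3 : e ⬝ᵥ (Q' *ᵥ f) = 1) (hz : z ≠ 0) : hyp Q' e f z ∈ Fixm61 a b t := by
  classical
  set Pe := vecMulVec e (Q' *ᵥ f) with hPe
  set Pf := vecMulVec f (Q' *ᵥ e) with hPf
  have h4 : f ⬝ᵥ (Q' *ᵥ e) = 1 := by rw [dot_symm hs, h3]
  have ee : Pe * Pe = Pe := by rw [hPe, vmv_mul, dotProduct_comm, h3, one_smul]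
  have ff : Pf * Pf = Pf := by rw [hPf, vmv_mul, dotProduct_comm, h4, one_smul]
  have ef : Pe * Pf = 0 := by rw [hPe, hPf, vmv_mul, dotProduct_comm, h2, zero_smul]
  have fe : Pf * Pe = 0 := by rw [hPe, hPf, vmv_mul, dotProduct_comm, h1, zero_smul]
  let R : ℤ → Matrix n n ℂ := fun p => if p = 1 then Pe else if p = -1 then Pf else if p = 0 then 1 - Pe - Pf else 0
  have R1 : R 1 = Pe := rfl
  have Rm : R (-1) = Pf := rfl
  have R0 : R 0 = 1 - Pe - Pf := rfl
  have Ro : ∀ p, p ≠ 1 → p ≠ -1 → p ≠ 0 → R p = 0 := by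
    intro p a b c
    simp only [R, if_neg a, if_neg b, if_neg c]
  have hR : Idm ({1, -1, 0} : Finset ℤ) R := by
    refine ⟨?_, ?_⟩
    · intro p q
      by_cases p1 : p = 1
      · subst p1
        by_cases q1 : q = 1
        · subst q1
          rw [R1, ee, if_pos rfl]
        · rw [if_neg (Ne.symm q1), R1]
          by_cases q2 : q = -1
          · subst q2
            rw [Rm, ef]
          · by_cases q3 : q = 0
            · subst q3
              rw [R0, mul_sub, mul_sub, mul_one, ee, ef, sub_self, sub_zero]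
            · rw [Ro q q1 q2 q3, mul_zero]
      · by_cases p2 : p = -1
        · subst p2
          rw [Rm]
          by_cases q1 : q = 1
          · subst q1
            rw [R1, fe, if_neg (by norm_num)]
          · by_cases q2 : q = -1
            · subst q2
              rw [Rm, ff, if_pos rfl]
            · rw [if_neg (Ne.symm q2)]
              by_cases q3 : q = 0
              · subst q3
                rw [R0, mul_sub, mul_sub, mul_one, fe, ff, sub_zero, sub_self]
              · rw [Ro q q1 q2 q3, mul_zero]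
        · by_cases p3 : p = 0
          · subst p3
            rw [R0]
            by_cases q1 : q = 1
            · subst q1
              rw [R1, sub_mul, sub_mul, one_mul, ee, fe, if_neg (by norm_num), sub_self, sub_zero]
            · by_cases q2 : q = -1
              · subst q2
                rw [Rm, sub_mul, sub_mul, one_mul, ef, ff, if_neg (by norm_num), sub_zero, sub_self]
              · by_cases q3 : q = 0
                · subst q3
                  rw [R0, if_pos rfl, sub_mul, sub_mul, one_mul, mul_sub, mul_sub, mul_sub, mul_sub, mul_one, mul_one,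
                    ee, ef, fe, ff]
                  abel
                · rw [Ro q q1 q2 q3, mul_zero, if_neg (Ne.symm q3)]
          · rw [Ro p p1 p2 p3, zero_mul]
            split_ifs <;> rfl
    · rw [Finset.sum_insert (by decide), Finset.sum_insert (by decide), Finset.sum_singleton, R1, Rm, R0]
      abel
  have hX : (Pe - Pf)ᵀ * Q' + Q' * (Pe - Pf) = 0 := by
    have e1 : ∀ u v : n → ℂ, (vecMulVec u (Q' *ᵥ v))ᵀ * Q' = Q' * vecMulVec v (Q' *ᵥ u) := by
      intro u v
      rw [Matrix.transpose_vecMulVec, Matrix.vecMulVec_mul, Matrix.mul_vecMulVec, ← Matrix.mulVec_transpose, hs]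
    rw [Matrix.transpose_sub, sub_mul, hPe, hPf, e1, e1, mul_sub]
    abel
  have h5 := hk _ hX
  have hz' : z⁻¹ ≠ 0 := inv_ne_zero hz
  have hsum : ∀ c : ℤ → ℂ, ∑ p ∈ ({1, -1, 0} : Finset ℤ), c p • R p = c 1 • Pe + (c (-1) • Pf + c 0 • (1 - Pe - Pf)) := by
    intro c
    rw [Finset.sum_insert (by decide), Finset.sum_insert (by decide), Finset.sum_singleton, R1, Rm, R0]
  have hhyp : ∀ z : ℂ, ∑ p ∈ ({1, -1, 0} : Finset ℤ), z ^ p • R p = hyp Q' e f z := by
    intro z
    rw [hsum (fun p => z ^ p)]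
    unfold hyp
    rw [← hPe, ← hPf, _root_.zpow_one, _root_.zpow_neg_one, _root_.zpow_zero, sub_smul, sub_smul, one_smul, one_smul,
      one_smul]
    abel
  refine ⟨hyp Q' e f z⁻¹, ?_, ?_⟩
  · unfold hyp
    rw [← hPe, ← hPf, inv_inv]
    have e2 : (z - 1) + (z⁻¹ - 1) + (z - 1) * (z⁻¹ - 1) = 0 := by
      field_simp
      ring
    have e3 : (1 + (z - 1) • Pe + (z⁻¹ - 1) • Pf) * (1 + (z⁻¹ - 1) • Pe + (z - 1) • Pf) =
        1 + ((z - 1) + (z⁻¹ - 1) + (z - 1) * (z⁻¹ - 1)) • Pe +
          ((z - 1) + (z⁻¹ - 1) + (z - 1) * (z⁻¹ - 1)) • Pf := by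
      simp only [add_mul, mul_add, one_mul, mul_one, smul_mul_smul_comm, ee, ff, ef, fe, smul_zero, add_zero,
        zero_add, add_smul, mul_comm (z⁻¹ - 1) (z - 1)]
      abel
    rw [e3, e2, zero_smul, zero_smul, add_zero, add_zero]
  · have h6 : Pe - Pf = ∑ p ∈ ({1, -1, 0} : Finset ℤ), (p : ℂ) • R p := by
      rw [hsum (fun p => (p : ℂ))]
      push_cast
      rw [one_smul, zero_smul, add_zero, neg_one_smul, sub_eq_add_neg]
    rw [h6] at h5
    have h7 := (hR.inv_iff a b t).2 h5 z hz
    rw [hhyp, hhyp] at h7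
    exact h7

/-- A tensor that is killed by the Lie algebra of the orthogonal group is fixed by the special orthogonal
group. -/
theorem so_fix (Q' : Matrix n n ℂ) (hQs : Q'ᵀ = Q') (hQd : Q'.det ≠ 0) {a b : ℕ} {t : (Fin a ⊕ Fin b → n) → ℂ}
    (hk : ∀ X : Matrix n n ℂ, Xᵀ * Q' + Q' * X = 0 → dL a b t X = 0) {g : GL n ℂ}
    (h1 : (g : Matrix n n ℂ)ᵀ * Q' * (g : Matrix n n ℂ) = Q') (h2 : (g : Matrix n n ℂ).det = 1) :
    actF (slot a b (g : Matrix n n ℂ) ((g⁻¹ : GL n ℂ) : Matrix n n ℂ)) t = t := by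
  obtain ⟨l, hl, hgl⟩ := refl_gen hQs hQd h1
  apply fix_of_mem61
  rw [hgl]
  refine pairs_mem (fun u v ha hb => pair_mem hQs hQd
    (fun e f z a1 a2 a3 a4 => hyp_mem61 hQs hk a1 a2 a3 a4) ha hb) l hl ?_
  -- the parity
  have hdet : ∀ l : List (n → ℂ), (∀ u ∈ l, u ⬝ᵥ (Q' *ᵥ u) ≠ 0) →
      (l.map (refl Q')).prod.det = (-1) ^ l.length := by
    intro l
    induction l with
    | nil => intro _; simp
    | cons u l ih =>
      intro h
      rw [List.map_cons, List.prod_cons, Matrix.det_mul, refl_det (h u (by simp)),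
        ih (fun w hw => h w (by simp [hw])), List.length_cons, pow_succ]
      ring
  have h3 := hdet l hl
  rw [← hgl, h2] at h3
  by_contra hodd
  rw [Nat.not_even_iff_odd] at hodd
  rw [hodd.neg_one_pow] at h3
  norm_num at h3

/-- A tensor that is killed by the identity matrix is fixed by the invertible scalars. -/
theorem scal_fix {a b : ℕ} {t : (Fin a ⊕ Fin b → n) → ℂ} (hk : dL a b t (1 : Matrix n n ℂ) = 0) {g : GL n ℂ} {z : ℂ}
    (hz : (g : Matrix n n ℂ) = z • 1) :
    actF (slot a b (g : Matrix n n ℂ) ((g⁻¹ : GL n ℂ) : Matrix n n ℂ)) t = t := by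
  classical
  apply fix_of_mem61
  by_cases hn : IsEmpty n
  · have h1 : (g : Matrix n n ℂ) = 1 := by
      ext i
      exact hn.elim i
    rw [h1]
    exact Submonoid.one_mem _
  rw [not_isEmpty_iff] at hn
  have hz0 : z ≠ 0 := by
    rintro rfl
    have h1 : (g : Matrix n n ℂ) * ((g⁻¹ : GL n ℂ) : Matrix n n ℂ) = 1 := by
      rw [← Units.val_mul, mul_inv_cancel, Units.val_one]
    rw [hz, zero_smul, zero_mul] at h1
    exact zero_ne_one h1
  let R : ℤ → Matrix n n ℂ := fun p => if p = 1 then 1 else 0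
  have hR : Idm ({1} : Finset ℤ) R := by
    refine ⟨?_, ?_⟩
    · intro p q
      simp only [R]
      split_ifs with h1 h2 h3 h4 h5 <;> simp_all
    · rw [Finset.sum_singleton]
      simp [R]
  have h7 := (hR.inv_iff a b t).2 (by
    rw [Finset.sum_singleton]
    simpa [R] using hk) z hz0
  simp only [Finset.sum_singleton, _root_.zpow_one, R, if_true] at h7
  refine ⟨z⁻¹ • 1, ?_, ?_⟩
  · rw [hz, smul_mul_smul_comm, mul_inv_cancel₀ hz0, one_smul, mul_one]
  · rw [hz]
    exact h7

end MH
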